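import Pool.Agent.W670.ML.Defs

set_option autoImplicit false

namespace Pool.Agent.W834.ML

open NumberField Pool.Agent.W670.ML

theorem cmp (h1 : S_IC) (h2 : S_MI) (h3 : S_DI) (h4 : S_AB) : S_CMP := by
  intro K _ _ n G hn hG m hm X
  obtain ⟨-, hMI⟩ := h2 n G hn hG
  obtain ⟨hm1, hmn, hind⟩ := hMI m hm
  obtain ⟨hDI, -, -⟩ := h3
  haveI hac : IsAlgClosure ℚ (AlgebraicClosure K) :=
    ⟨inferInstance, Algebra.IsAlgebraic.trans ℚ K (AlgebraicClosure K)⟩
  have hK : 0 < Module.finrank ℚ K := Module.finrank_pos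
  have hN : 0 < n * Module.finrank ℚ K := Nat.mul_pos (by omega) hK
  have key := h4 (n * Module.finrank ℚ K) m (AlgebraicClosure K) hN
    ((fun L : IntermediateField K (AlgebraicClosure K) => L.restrictScalars ℚ) '' fields K n G X)
    (((discr K).natAbs : ℝ) ^ n * X) ?_
  · have hinj : Function.Injective
        (fun L : IntermediateField K (AlgebraicClosure K) => L.restrictScalars ℚ) :=
      IntermediateField.restrictScalars_injective ℚ
    have := key.2
    rwa [Set.ncard_image_of_injective _ hinj] at this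
  · rintro _ ⟨L, ⟨hL, hnf, hX⟩, rfl⟩
    have hfin : Module.finrank ℚ L = n * Module.finrank ℚ K := by
      rw [← Module.finrank_mul_finrank ℚ K L, hL.1, mul_comm]
    refine ⟨hfin, ⟨hnf, ?_⟩, ?_⟩
    · have h := hDI K L
      rw [hL.1] at h
      have h' : ((discr L).natAbs : ℝ) ≤ ((discr K).natAbs : ℝ) ^ n * X := by
        rw [h]
        push_cast
        rw [mul_comm]
        exact mul_le_mul_of_nonneg_left hX (by positivity)
      exact h'
    · intro H hH h hh hne
      exact h1 K (AlgebraicClosure K) n _ m G H L hL hH hmn hind h hh hne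

end Pool.Agent.W834.ML
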